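import Mathlib

set_option autoImplicit false

namespace Pool.Agent.Results.MP_82b063_al.Counter

open Set Topology Filter Pointwise

def Pseudocompact (X : Type) [TopologicalSpace X] : Prop :=
  ∀ 𝒰 : Set (Set X), (∀ U ∈ 𝒰, IsOpen U ∧ U.Nonempty) →
    LocallyFinite (fun U : 𝒰 => (U : Set X)) → 𝒰.Finite

def CountablyPracompact (X : Type) [TopologicalSpace X] : Prop :=
  ∃ D : Set X, Dense D ∧ ∀ B ⊆ D, B.Infinite → ∃ x, ∀ U ∈ 𝓝 x, (U ∩ B).Infinite

def TopPeriodic (G : Type) [Group G] [TopologicalSpace G] : Prop :=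
  ∀ x : G, ∀ U ∈ 𝓝 (1 : G), ∃ n : ℕ, 1 ≤ n ∧ x ^ n ∈ U

def LeftOmegaPrecompact (G : Type) [Group G] [TopologicalSpace G] : Prop :=
  ∀ U ∈ 𝓝 (1 : G), ∃ F : Set G, F.Countable ∧ F * U = univ

lemma CountablyPracompact.pseudo {X : Type} [TopologicalSpace X] (h : CountablyPracompact X) :
    Pseudocompact X := by
  obtain ⟨D, hD, h⟩ := h
  intro 𝒰 h1 h2
  by_contra h3
  have : Infinite 𝒰 := Set.infinite_coe_iff.2 h3
  choose d hd using fun U : 𝒰 => hD.inter_open_nonempty _ (h1 U U.2).1 (h1 U U.2).2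
  by_cases h4 : (range d).Finite
  · have := h4.to_subtype
    obtain ⟨y, hy⟩ := Finite.exists_infinite_fiber (rangeFactorization d)
    refine Set.infinite_coe_iff.1 hy ((h2.point_finite y).subset fun U hU => ?_)
    have : d U = y := congrArg Subtype.val hU
    exact this ▸ (hd U).1
  · obtain ⟨x, hx⟩ := h (range d) (range_subset_iff.2 fun U => (hd U).2) h4
    obtain ⟨t, ht, h5⟩ := h2 x
    refine hx t ht ((h5.image d).subset ?_)
    rintro _ ⟨h6, U, rfl⟩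
    exact ⟨U, ⟨d U, (hd U).1, h6⟩, rfl⟩

abbrev T : Type := AddCircle (1 : ℝ)

lemma exists_phi : ∃ φ : T →+ ℚ, ∀ p, Dense (φ ⁻¹' {p}) := by
  have h : (√2 : ℝ) ∉ Submodule.span ℚ {(1 : ℝ)} := fun h => by
    obtain ⟨q, hq⟩ := Submodule.mem_span_singleton.1 h
    exact irrational_sqrt_two ⟨q, by simpa using hq⟩
  obtain ⟨ψ, h1, h2⟩ := Submodule.exists_dual_map_eq_bot_of_notMem h inferInstance
  have h3 : ψ 1 = 0 := by
    have : ψ 1 ∈ (Submodule.span ℚ {(1 : ℝ)}).map ψ := ⟨1, Submodule.subset_span rfl, rfl⟩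
    rwa [h2] at this
  refine ⟨QuotientAddGroup.lift _ ψ.toAddMonoidHom fun x hx => ?_, fun p => ?_⟩
  · obtain ⟨k, rfl⟩ := AddSubgroup.mem_zmultiples_iff.1 hx
    rw [AddMonoidHom.mem_ker, map_zsmul]
    simp [h3]
  · have h4 : DenseRange fun q : ℚ => (((p / ψ √2) • √2 + (q : ℝ) : ℝ) : T) :=
      (QuotientAddGroup.mk'_surjective _).denseRange.comp
        ((Homeomorph.addLeft ((p / ψ √2) • √2)).surjective.denseRange.comp Rat.denseRange_cast
          (continuous_const_add _)) (AddCircle.continuous_mk' 1)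
    refine h4.mono (range_subset_iff.2 fun q => ?_)
    have : (q : ℝ) = q • (1 : ℝ) := by simp
    show ψ _ = p
    rw [map_add, map_smul, this, map_smul, h3]
    simp [h1]

noncomputable def φ : T →+ ℚ := exists_phi.choose

def A : ℕ → ℕ
  | 0 => 1
  | j + 1 => (j + 1) * A j ^ 2

lemma A_pos (j : ℕ) : 1 ≤ A j := by
  induction j with
  | zero => exact le_rfl
  | succ j ih => exact Nat.mul_pos j.succ_pos (by positivity)

lemma A_mono : Monotone A := monotone_nat_of_le_succ fun j => by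
  have := A_pos j
  simp only [A]; nlinarith

lemma le_A (j : ℕ) : j ≤ A j := by
  cases j with
  | zero => simp
  | succ j => exact Nat.le_mul_of_pos_right _ (pow_pos (A_pos j) 2)

def V (n : ℕ) : Set ℚ :=
  {t | t = 0 ∨ ∃ j ≥ n, (2 - (1 / 2) ^ n) * (A j : ℚ) ≤ (-1) ^ j * t ∧
    (-1) ^ j * t ≤ (1 / 2) ^ n * (A (j + 1) : ℚ)}

lemma V_add {n : ℕ} {s t : ℚ} (hs : s ∈ V (n + 1)) (ht : t ∈ V (n + 1)) : s + t ∈ V n := by
  have hu : (0 : ℚ) < (1 / 2) ^ (n + 1) := by positivity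
  have hu1 : ((1 : ℚ) / 2) ^ (n + 1) ≤ 1 := pow_le_one₀ (by norm_num) (by norm_num)
  have hu2 : ((1 : ℚ) / 2) ^ n = 2 * (1 / 2) ^ (n + 1) := by ring
  have hA : ∀ j, (0 : ℚ) < A j := fun j => by exact_mod_cast A_pos j
  have hM : ∀ {j k}, j ≤ k → (A j : ℚ) ≤ A k := fun h => by exact_mod_cast A_mono h
  simp only [V, mem_ofPred_eq, hu2] at *
  generalize ((1 : ℚ) / 2) ^ (n + 1) = u at *
  have key : ∀ {s t : ℚ} {j k : ℕ}, j < k → (2 - u) * A j ≤ (-1) ^ j * s →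
      (-1) ^ j * s ≤ u * A (j + 1) → (2 - u) * A k ≤ (-1) ^ k * t → (-1) ^ k * t ≤ u * A (k + 1) →
      (2 - 2 * u) * A k ≤ (-1) ^ k * (s + t) ∧ (-1) ^ k * (s + t) ≤ 2 * u * A (k + 1) := by
    intro s t j k h h1 h2 h3 h4
    have h5 : |(-1) ^ k * s| ≤ u * A k := by
      have : |(-1) ^ k * s| = |(-1) ^ j * s| := by simp [abs_mul]
      rw [this, abs_of_nonneg (by nlinarith [hA j])]
      exact h2.trans (mul_le_mul_of_nonneg_left (hM h) hu.le)
    have h6 := abs_le.1 h5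
    have h7 := mul_le_mul_of_nonneg_left (hM k.le_succ) hu.le
    constructor <;> nlinarith
  rcases hs with rfl | ⟨j, hj, h1, h2⟩ <;> rcases ht with rfl | ⟨k, hk, h3, h4⟩
  · simp
  · exact Or.inr ⟨k, by omega, by rw [zero_add]; nlinarith [hA k],
      by rw [zero_add]; nlinarith [hA (k + 1)]⟩
  · exact Or.inr ⟨j, by omega, by rw [add_zero]; nlinarith [hA j],
      by rw [add_zero]; nlinarith [hA (j + 1)]⟩
  · rcases lt_trichotomy j k with h | rfl | h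
    · exact Or.inr ⟨k, by omega, key h h1 h2 h3 h4⟩
    · exact Or.inr ⟨j, by omega, by nlinarith [hA j], by nlinarith⟩
    · exact Or.inr ⟨j, by omega, add_comm s t ▸ key h h3 h4 h1 h2⟩

def W (n : ℕ) : Set T := {y | ‖y‖ < (1 / 2) ^ n ∧ φ y ∈ V n}

lemma W_zero (n : ℕ) : 0 ∈ W n := ⟨by simp, Or.inl (map_zero _)⟩

lemma W_add {n : ℕ} {s t : T} (hs : s ∈ W (n + 1)) (ht : t ∈ W (n + 1)) : s + t ∈ W n :=
  ⟨(norm_add_le _ _).trans_lt (by have := hs.1; have := ht.1; rw [pow_succ] at *; linarith),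
    map_add φ s t ▸ V_add hs.2 ht.2⟩

lemma W_anti : Antitone W := antitone_nat_of_succ_le fun n y hy => by
  simpa using W_add hy (W_zero _)

def G : Type := Multiplicative T

noncomputable instance : CommGroup G := inferInstanceAs (CommGroup (Multiplicative T))

def ι : T ≃ G := Multiplicative.ofAdd

lemma ι_add (x y : T) : ι (x + y) = ι x * ι y := rfl

instance : TopologicalSpace G where
  IsOpen U := ∀ x ∈ U, ∃ n, ∀ y ∈ W n, x * ι y ∈ U
  isOpen_univ := fun _ _ => ⟨0, fun _ _ => trivial⟩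
  isOpen_inter := fun _ _ h1 h2 x hx => by
    obtain ⟨m, hm⟩ := h1 x hx.1
    obtain ⟨n, hn⟩ := h2 x hx.2
    exact ⟨max m n, fun y hy => ⟨hm y (W_anti (le_max_left _ _) hy),
      hn y (W_anti (le_max_right _ _) hy)⟩⟩
  isOpen_sUnion := fun _ h x ⟨U, hU, hx⟩ => (h U hU x hx).imp fun n hn y hy => ⟨U, hU, hn y hy⟩

lemma mem_nhds {x : T} {U : Set G} : U ∈ 𝓝 (ι x) ↔ ∃ n, ∀ y ∈ W n, ι (x + y) ∈ U := by
  refine ⟨fun h => ?_, fun ⟨n, hn⟩ => ?_⟩
  · obtain ⟨O, h1, h2, h3⟩ := mem_nhds_iff.1 h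
    exact (h2 _ h3).imp fun n hn y hy => h1 (hn y hy)
  · refine mem_nhds_iff.2 ⟨{z | ∃ m, ∀ y ∈ W m, z * ι y ∈ U}, fun z ⟨m, hm⟩ => ?_,
      fun z ⟨m, hm⟩ => ⟨m + 1, fun y hy => ⟨m + 1, fun w hw => ?_⟩⟩, n, hn⟩
    · exact mul_one z ▸ hm 0 (W_zero m)
    · exact (mul_assoc z _ _).symm ▸ hm _ (W_add hy hw)

noncomputable def p (j : ℕ) : ℚ := (-1) ^ j * (3 * A j)

lemma p_tendsto (q : ℚ) (n : ℕ) : ∀ᶠ j in atTop, p j - q ∈ V n := by
  filter_upwards [eventually_ge_atTop n, eventually_ge_atTop ⌈|q|⌉₊,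
    eventually_ge_atTop (4 * 2 ^ n)] with j h1 h2 h3
  have h4 : |(-1) ^ j * q| ≤ A j := by
    rw [abs_mul, abs_neg_one_pow, one_mul]
    exact (Nat.le_ceil _).trans (by exact_mod_cast h2.trans (le_A j))
  have h5 : (-1) ^ j * (p j - q) = 3 * A j - (-1) ^ j * q := by
    rw [p, mul_sub, ← mul_assoc, ← mul_pow]; simp
  have h6 := abs_le.1 h4
  have hu : (0 : ℚ) < (1 / 2) ^ n := by positivity
  have hA : (1 : ℚ) ≤ A j := by exact_mod_cast A_pos j
  have h7 : (4 : ℚ) * 2 ^ n ≤ j := by exact_mod_cast h3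
  have h8 : (4 : ℚ) ≤ (1 / 2) ^ n * (j + 1) := by
    rw [one_div, inv_pow, le_inv_mul_iff₀ (by positivity)]; linarith
  refine Or.inr ⟨j, h1, by rw [h5]; nlinarith, ?_⟩
  rw [h5, A]
  push_cast
  nlinarith [mul_le_mul_of_nonneg_right h8 (sq_nonneg (A j : ℚ))]

lemma exists_D : ∃ D : ℕ → Set T, ∀ j, (D j).Finite ∧ D j ⊆ φ ⁻¹' {p j} ∧
    ∀ x, ∃ d ∈ D j, ‖d - x‖ < (1 / 2) ^ j := by
  refine Classical.axiomOfChoice (r := fun j (E : Set T) => E.Finite ∧ E ⊆ φ ⁻¹' {p j} ∧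
    ∀ x, ∃ d ∈ E, ‖d - x‖ < (1 / 2) ^ j) fun j => ?_
  obtain ⟨E, h1, h2, h3⟩ := isCompact_univ.elim_finite_subcover_image (b := φ ⁻¹' {p j})
    (c := fun d => Metric.ball d ((1 / 2) ^ j)) (fun _ _ => Metric.isOpen_ball) fun x _ => by
      obtain ⟨d, h1, h2⟩ := (exists_phi.choose_spec (p j)).exists_dist_lt x
        (show (0 : ℝ) < (1 / 2) ^ j by positivity)
      exact mem_biUnion h1 h2
  refine ⟨E, h2, h1, fun x => ?_⟩
  obtain ⟨d, h4, h5⟩ := mem_iUnion₂.1 (h3 (mem_univ x))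
  exact ⟨d, h4, by rwa [← dist_eq_norm, dist_comm]⟩

lemma periodic (x : T) (n : ℕ) : ∃ k : ℕ, 1 ≤ k ∧ k • x ∈ W n := by
  have dir : ∀ L : ℕ, 1 ≤ L → ∃ k : ℕ, L ≤ k ∧ k ≤ L ^ 2 * 2 ^ n ∧ ‖k • x‖ < (1 / 2) ^ n := by
    intro L hL
    obtain ⟨k, ⟨h1, h2⟩, h3⟩ := AddCircle.exists_norm_nsmul_le x (n := L * 2 ^ n) (by positivity)
    refine ⟨L * k, Nat.le_mul_of_pos_right _ h1, by nlinarith, ?_⟩
    rw [mul_comm, mul_nsmul]
    refine (norm_nsmul_le.trans (mul_le_mul_of_nonneg_left h3 L.cast_nonneg)).trans_lt ?_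
    rw [mul_one_div, div_lt_iff₀ (by positivity), one_div, inv_pow, lt_inv_mul_iff₀ (by positivity)]
    push_cast; linarith
  by_cases h : φ x = 0
  · obtain ⟨k, h1, -, h2⟩ := dir 1 le_rfl
    exact ⟨k, h1, h2, Or.inl (by simp [h])⟩
  have ht : 0 < |φ x| := abs_pos.2 h
  obtain ⟨c, hc⟩ := exists_nat_gt (2 / |φ x|)
  have hc0 : 1 ≤ c := by
    have : (0 : ℚ) < c := (div_pos two_pos ht).trans hc
    exact_mod_cast this
  obtain ⟨j, h1, h2, h3⟩ : ∃ j ≥ n, (c ^ 2 * 2 ^ n * 2 ^ n * |φ x| : ℚ) ≤ j ∧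
      (-1) ^ j * φ x = |φ x| := by
    obtain ⟨m, hm⟩ := exists_nat_ge (c ^ 2 * 2 ^ n * 2 ^ n * |φ x| : ℚ)
    rcases lt_or_gt_of_ne h with h | h
    · exact ⟨2 * (n + m) + 1, by omega, hm.trans (by exact_mod_cast by omega),
        by simp [pow_succ, abs_of_neg h]⟩
    · exact ⟨2 * (n + m), by omega, hm.trans (by exact_mod_cast by omega), by simp [abs_of_pos h]⟩
  obtain ⟨k, h4, h5, h6⟩ := dir (c * A j) (Nat.mul_pos hc0 (A_pos j))
  refine ⟨k, (Nat.mul_pos hc0 (A_pos j)).trans_le h4, h6, Or.inr ⟨j, h1, ?_⟩⟩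
  have h7 : (-1) ^ j * φ (k • x) = k * |φ x| := by rw [map_nsmul, ← h3]; ring
  have h8 : (c * A j : ℚ) ≤ k := by exact_mod_cast h4
  have h9 : (k : ℚ) ≤ (c * A j) ^ 2 * 2 ^ n := by exact_mod_cast h5
  have hu : (0 : ℚ) < (1 / 2) ^ n := by positivity
  have hA : (1 : ℚ) ≤ A j := by exact_mod_cast A_pos j
  rw [div_lt_iff₀ ht] at hc
  rw [h7, A]
  refine ⟨by nlinarith, ?_⟩
  rw [one_div, inv_pow, le_inv_mul_iff₀ (by positivity)]
  push_cast
  have := mul_le_mul_of_nonneg_right h2 (sq_nonneg (A j : ℚ))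
  have := mul_le_mul_of_nonneg_right h9 (show (0 : ℚ) ≤ 2 ^ n * |φ x| by positivity)
  nlinarith

theorem result : ∃ (G : Type) (_ : CommGroup G) (_ : TopologicalSpace G),
    ContinuousMul G ∧ T2Space G ∧ TopPeriodic G ∧ CountablyPracompact G ∧ Pseudocompact G ∧
      LeftOmegaPrecompact G ∧ ¬ ContinuousInv G := by
  obtain ⟨D, hD⟩ := exists_D
  have dens : ∀ x n, ∃ d ∈ ⋃ j, D j, d - x ∈ W n := fun x n => by
    obtain ⟨j, h1, h2⟩ := ((p_tendsto (φ x) n).and (eventually_ge_atTop n)).exists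
    obtain ⟨d, h3, h4⟩ := (hD j).2.2 x
    refine ⟨d, mem_iUnion.2 ⟨j, h3⟩,
      h4.trans_le (pow_le_pow_of_le_one (by norm_num) (by norm_num) h2), ?_⟩
    rwa [map_sub, show φ d = p j from (hD j).2.1 h3]
  have prac : CountablyPracompact G := by
    refine ⟨ι '' ⋃ j, D j, fun x => mem_closure_iff_nhds.2 fun U hU => ?_, fun B hB h => ?_⟩
    · obtain ⟨x, rfl⟩ := ι.surjective x
      obtain ⟨n, hn⟩ := mem_nhds.1 hU
      obtain ⟨d, h1, h2⟩ := dens x n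
      exact ⟨ι d, by simpa using hn _ h2, d, h1, rfl⟩
    · obtain ⟨x, hx⟩ := (h.preimage (f := ι) (ι.surjective.range_eq ▸ subset_univ _)).exists_accPt_cofinite_inf_principal
      refine ⟨ι x, fun U hU hf => ?_⟩
      obtain ⟨n, hn⟩ := mem_nhds.1 hU
      obtain ⟨m, hm⟩ := eventually_atTop.1 (p_tendsto (φ x) n)
      have h1 : ((ι ⁻¹' (U ∩ B)) ∪ ⋃ j < m, D j).Finite :=
        (hf.preimage ι.injective.injOn).union ((finite_lt_nat m).biUnion fun j _ => (hD j).1)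
      obtain ⟨d, ⟨h2, h3, h4⟩⟩ := (clusterPt_iff_nonempty.1 hx.clusterPt)
        (Metric.ball_mem_nhds x (show (0 : ℝ) < (1 / 2) ^ n by positivity))
        (inter_mem_inf h1.compl_mem_cofinite (mem_principal_self _))
      obtain ⟨j, hj⟩ := mem_iUnion.1 ((ι.injective.mem_set_image).1 (hB h4))
      refine h3 ((lt_or_ge j m).elim (fun h => Or.inr (mem_biUnion h hj)) fun h => Or.inl ⟨?_, h4⟩)
      have := hn (d - x) ⟨by rwa [← dist_eq_norm], by
        rw [map_sub, show φ d = p j from (hD j).2.1 hj]; exact hm j h⟩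
      simpa using this
  refine ⟨G, inferInstance, inferInstance, ⟨continuous_iff_continuousAt.2 fun ⟨x, y⟩ U hU => ?_⟩,
    ?_, fun x U hU => ?_, prac, prac.pseudo, fun U hU => ?_, fun h => ?_⟩
  · obtain ⟨x, rfl⟩ := ι.surjective x
    obtain ⟨y, rfl⟩ := ι.surjective y
    obtain ⟨n, hn⟩ := (mem_nhds (x := x + y)).1 hU
    refine mem_map.2 (mem_of_superset (prod_mem_nhds (s := ι '' {z | z - x ∈ W (n + 1)})
      (t := ι '' {z | z - y ∈ W (n + 1)}) (mem_nhds.2 ⟨n + 1, fun z hz => ⟨_, by simpa, rfl⟩⟩)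
      (mem_nhds.2 ⟨n + 1, fun z hz => ⟨_, by simpa, rfl⟩⟩)) ?_)
    rintro ⟨_, _⟩ ⟨⟨a, ha, rfl⟩, ⟨b, hb, rfl⟩⟩
    have := hn _ (W_add ha hb)
    rwa [show x + y + (a - x + (b - y)) = a + b by abel] at this
  · refine T2Space.of_injective_continuous ι.symm.injective
      (continuous_iff_continuousAt.2 fun x U hU => ?_)
    obtain ⟨x, rfl⟩ := ι.surjective x
    obtain ⟨ε, h1, h2⟩ := Metric.mem_nhds_iff.1 hU
    obtain ⟨n, hn⟩ := exists_pow_lt_of_lt_one h1 (show (1 / 2 : ℝ) < 1 by norm_num)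
    exact mem_nhds.2 ⟨n, fun y hy => h2 (show dist (x + y) x < ε by simpa using hy.1.trans hn)⟩
  · obtain ⟨n, hn⟩ := (mem_nhds (x := 0)).1 hU
    obtain ⟨k, h1, h2⟩ := periodic (ι.symm x) n
    exact ⟨k, h1, by have := hn _ h2; rwa [zero_add] at this⟩
  · obtain ⟨n, hn⟩ := (mem_nhds (x := 0)).1 hU
    refine ⟨(fun d => ι (-d)) '' ⋃ j, D j, (countable_iUnion fun j => (hD j).1.countable).image _,
      eq_univ_of_forall fun x => ?_⟩
    obtain ⟨x, rfl⟩ := ι.surjective x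
    obtain ⟨d, h1, h2⟩ := dens (-x) n
    exact ⟨_, ⟨d, h1, rfl⟩, _, hn _ h2, (ι_add _ _).symm.trans (congrArg ι (by abel))⟩
  · have h1 : ι '' W 0 ∈ 𝓝 (ι (-0)) := mem_nhds.2 ⟨0, fun y hy => ⟨y, hy, by simp⟩⟩
    obtain ⟨n, hn⟩ := (mem_nhds (x := 0)).1 (continuous_inv.continuousAt (x := ι 0) h1)
    obtain ⟨j, h2, h3, h4⟩ := ((p_tendsto 0 n).and
      ((eventually_ge_atTop n).and (eventually_ge_atTop 3))).exists
    obtain ⟨d, h5, h6⟩ := (hD j).2.2 0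
    have h7 : φ d = p j := (hD j).2.1 h5
    obtain ⟨z, h8, h9⟩ := hn d ⟨by simpa using h6.trans_le (pow_le_pow_of_le_one (by norm_num) (by norm_num) h3), by simpa [h7] using h2⟩
    have h10 : z = -(0 + d) := ι.injective h9
    have hA : ∀ j, (1 : ℚ) ≤ A j := fun j => by exact_mod_cast A_pos j
    have hM : ∀ {j k}, j ≤ k → (A j : ℚ) ≤ A k := fun h => by exact_mod_cast A_mono h
    have h11 := h8.2
    rw [h10, zero_add, map_neg, h7, p] at h11
    rcases h11 with h11 | ⟨k, -, h11, h12⟩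
    · have := hA j
      simp at h11
      simp [h11] at this
      norm_num at this
    · have h13 : |(-1 : ℚ) ^ k * -((-1) ^ j * (3 * A j))| = 3 * A j := by simp [abs_mul]
      rw [abs_of_nonneg (by nlinarith [hA k])] at h13
      rw [h13] at h11 h12
      rcases lt_trichotomy j k with h | rfl | h
      · have := hM (show j + 1 ≤ k from h)
        have h14 : (3 : ℚ) ≤ j := by exact_mod_cast h4
        rw [A] at this
        push_cast at this
        nlinarith [hA j]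
      · rw [mul_neg, ← mul_assoc, ← mul_pow] at h13
        simp at h13
        linarith [hA j]
      · have := hM (show k + 1 ≤ j from h)
        linarith [hA j]

end Pool.Agent.Results.MP_82b063_al.Counter
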